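import Pool.Agent.V11103.QQ2

/-!
A homogeneous quadratic program with two constraints can have six strict local non-global
minimizers.
-/

namespace Pool.Agent.Results.MP_4a3f67_an.SixLocalMinimizers

open Pool.Agent.V11103.QQ2

/-- There are real symmetric `4 × 4` matrices `A₀, A₁, A₂` for which the problem
`min {q₀(x) : q₁(x) = 1, q₂(x) ≤ 1}` has at least six strict local non-global minimizers. -/
theorem result : ∃ A₀ A₁ A₂ : Matrix (Fin 4) (Fin 4) ℝ,
    A₀.IsSymm ∧ A₁.IsSymm ∧ A₂.IsSymm ∧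
      6 ≤ {x : Fin 4 → ℝ | IsStrictLocalNonGlobal A₀ A₁ A₂ x}.encard := by
  refine ⟨A0, A1, A2, A0_symm, A1_symm, A2_symm, ?_⟩
  rw [← card_six]
  exact Set.encard_le_encard fun x hx => six x hx

end Pool.Agent.Results.MP_4a3f67_an.SixLocalMinimizers
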